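import Pool.Agent.helper3.T6R.Spec

set_option autoImplicit false

namespace Pool.Agent.T6R

open Finset NumberField Pool.Agent.helper3.FT Pool.Agent.helper47.RA Pool.Agent.T5 Pool.Agent.T6
open scoped nonZeroDivisors

lemma RFI_near (N D : ℝ) (hD : 1 ≤ D) (hDN : D ≤ N) :
    ∃ i : ℕ, D ≤ N / 2 ^ i ∧ N / 2 ^ i / 2 < D ∧ (i : ℝ) < N := by
  have hD0 : 0 < D := by linarith
  have h1 : 1 ≤ N / D := by
    rw [le_div_iff₀ hD0]
    linarith
  obtain ⟨i, h2, h3⟩ := exists_nat_pow_near h1 (by norm_num : (1 : ℝ) < 2)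
  have hp : (0 : ℝ) < 2 ^ i := by positivity
  refine ⟨i, ?_, ?_, ?_⟩
  · rw [le_div_iff₀ hD0] at h2
    rw [le_div_iff₀ hp]
    linarith
  · rw [div_lt_iff₀ hD0, pow_succ] at h3
    rw [div_div, div_lt_iff₀ (by positivity)]
    linarith
  · have h4 : (i : ℝ) < 2 ^ i := by exact_mod_cast Nat.lt_two_pow_self
    have h5 : N / D ≤ N := div_le_self (by linarith) hD
    linarith

theorem RFI (hRSU : RSU_stmt) : RFI_stmt := by
  classical
  intro hTDR
  obtain ⟨C, N₀, hC, hN₀, hS⟩ := hRSU hTDR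
  obtain ⟨C₁, hC₁, hmb⟩ := main_bound 1 one_pos
  obtain ⟨M, hM⟩ : ∃ M : ℕ, M = ⌈N₀⌉₊ + 1 := ⟨_, rfl⟩
  obtain ⟨C₃, hC₃⟩ : ∃ C₃ : ℝ, C₃ = C₁ * (M : ℝ) ^ ((1 : ℝ) + 1) := ⟨_, rfl⟩
  have hC₃0 : 0 ≤ C₃ := by
    rw [hC₃]
    positivity
  refine ⟨C₃ + 2 * C, by linarith, ?_⟩
  intro f hf N s hs
  rcases Nat.eq_zero_or_pos N with h0 | hN
  · subst h0
    have : s = ∅ := by
      rw [Finset.eq_empty_iff_forall_notMem]
      intro D hD
      have h1 := (hs D hD).2.2
      have h2 := abs_nonneg D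
      simp at h1
      omega
    rw [this, Finset.sum_empty]
    simp
  have hNR : (1 : ℝ) ≤ N := by exact_mod_cast hN
  have habs : ∀ D ∈ s, ((|D| : ℤ) : ℝ) = (D : ℝ) := by
    intro D hD
    rw [abs_of_pos (hs D hD).2.1]
  have hltN : ∀ D ∈ s, (D : ℝ) < N := by
    intro D hD
    rw [← habs D hD]
    exact_mod_cast (hs D hD).2.2
  have hone : ∀ D ∈ s, 1 ≤ (D : ℝ) := by
    intro D hD
    have h1 : (1 : ℤ) ≤ D := by
      have := (hs D hD).2.1
      omega
    exact_mod_cast h1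
  rw [← Finset.sum_filter_add_sum_filter_not s (fun D : ℤ => (D : ℝ) ≤ N₀)]
  have hp1 : ∑ D ∈ s.filter (fun D : ℤ => (D : ℝ) ≤ N₀), (f D : ℝ) ≤ C₃ * N := by
    have h1 := hmb f hf M (s.filter (fun D : ℤ => (D : ℝ) ≤ N₀)) (by
      intro D hD
      rw [Finset.mem_filter] at hD
      refine ⟨(hs D hD.1).1, ?_⟩
      have h2 : ((|D| : ℤ) : ℝ) < (M : ℝ) := by
        rw [habs D hD.1, hM]
        push_cast
        have := Nat.le_ceil N₀
        linarith [hD.2]
      exact_mod_cast h2)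
    rw [← hC₃] at h1
    nlinarith
  have hp2 : ∑ D ∈ s.filter (fun D : ℤ => ¬ (D : ℝ) ≤ N₀), (f D : ℝ) ≤ 2 * C * N := by
    obtain ⟨I, hI⟩ : ∃ I : Finset ℕ, I = (range (N + 1)).filter (fun i => N₀ ≤ (N : ℝ) / 2 ^ i) := ⟨_, rfl⟩
    have h1 : ∀ D ∈ s.filter (fun D : ℤ => ¬ (D : ℝ) ≤ N₀),
        (f D : ℝ) ≤ ∑ i ∈ I, (if D ∈ DNR ((N : ℝ) / 2 ^ i) then (f D : ℝ) else 0) := by
      intro D hD
      rw [Finset.mem_filter] at hD
      obtain ⟨i, a1, a2, a3⟩ := RFI_near (N : ℝ) (D : ℝ) (hone D hD.1) (hltN D hD.1).le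
      have hiI : i ∈ I := by
        rw [hI, Finset.mem_filter, Finset.mem_range]
        refine ⟨?_, ?_⟩
        · have : i < N := by exact_mod_cast a3
          omega
        · have := not_le.mp hD.2
          linarith
      have hDD : D ∈ DNR ((N : ℝ) / 2 ^ i) := by
        unfold DNR
        rw [Finset.mem_filter, Finset.mem_Icc]
        refine ⟨⟨?_, ?_⟩, (hs D hD.1).1, a2⟩
        · have := (hs D hD.1).2.1
          omega
        · exact Int.le_floor.mpr a1
      have h2 := Finset.single_le_sum (f := fun i => (if D ∈ DNR ((N : ℝ) / 2 ^ i) then (f D : ℝ) else 0))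
        (fun j _ => by
          split_ifs
          · positivity
          · exact le_refl _) hiI
      simp only [hDD, if_true] at h2
      exact h2
    calc ∑ D ∈ s.filter (fun D : ℤ => ¬ (D : ℝ) ≤ N₀), (f D : ℝ)
        ≤ ∑ D ∈ s.filter (fun D : ℤ => ¬ (D : ℝ) ≤ N₀),
          ∑ i ∈ I, (if D ∈ DNR ((N : ℝ) / 2 ^ i) then (f D : ℝ) else 0) := Finset.sum_le_sum h1
      _ = ∑ i ∈ I, ∑ D ∈ s.filter (fun D : ℤ => ¬ (D : ℝ) ≤ N₀),
          (if D ∈ DNR ((N : ℝ) / 2 ^ i) then (f D : ℝ) else 0) := Finset.sum_comm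
      _ ≤ ∑ i ∈ I, ∑ D ∈ DNR ((N : ℝ) / 2 ^ i), (f D : ℝ) := by
          apply Finset.sum_le_sum
          intro i _
          rw [← Finset.sum_filter]
          apply Finset.sum_le_sum_of_subset_of_nonneg
          · intro D hD
            exact (Finset.mem_filter.mp hD).2
          · intro D _ _
            positivity
      _ ≤ ∑ i ∈ I, C * ((N : ℝ) / 2 ^ i) := by
          apply Finset.sum_le_sum
          intro i hi
          rw [hI, Finset.mem_filter] at hi
          exact hS f hf _ hi.2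
      _ ≤ ∑ i ∈ range (N + 1), C * ((N : ℝ) / 2 ^ i) := by
          apply Finset.sum_le_sum_of_subset_of_nonneg
          · rw [hI]
            exact Finset.filter_subset _ _
          · intro i _ _
            positivity
      _ = C * N * ∑ i ∈ range (N + 1), ((1 : ℝ) / 2) ^ i := by
          rw [Finset.mul_sum]
          apply Finset.sum_congr rfl
          intro i _
          rw [one_div, inv_pow]
          ring
      _ ≤ C * N * 2 := by
          apply mul_le_mul_of_nonneg_left (sum_geometric_two_le _)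
          positivity
      _ = 2 * C * N := by ring
  have h3 : (C₃ + 2 * C) * (N : ℝ) = C₃ * N + 2 * C * N := by ring
  rw [h3]
  exact add_le_add hp1 hp2

end Pool.Agent.T6R
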